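import Pool.Agent.Lib.MP_431f31_co.E3

/-!
# A circle, its centre and a pair of inverse points are rationally approximable

Problem MP_431f31_co: which sets `P` of the plane are rationally approximable, i.e. for every `ε > 0`
there is a set `X` all of whose pairwise distances are rational and which comes within `ε` of every
point of `P`? Known: sets of three points, subsets of a line, subsets of a circle.

Here: for every circle `C` with centre `c` and every point `q` the set `C ∪ {c, q, q'}`, with `q'` the
inverse point of `q` with respect to `C`, is rationally approximable.

Proof. For suitable rational `a > b > 0` the rational `x` such that `(x, 0)` has rational distance to
`(0, a)` and `(1, b)` are dense in the line (a translation of the elliptic curve acts as an irrational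
rotation, by a 2-adic contraction estimate). Inversion in the point `(0, a)` maps the axis to a circle,
`(0, -a)` to its centre and `(1, ± b)` to a pair of inverse points; all distances stay rational.
-/

set_option autoImplicit false

namespace Pool.Agent.Results.MP_431f31_co.CirclePlusThree

/-- For every circle of centre `c` and radius `R > 0` and every point `q` of the plane the set
consisting of the circle, `c`, `q` and the inverse point of `q` is rationally approximable. -/
theorem result (c q : EuclideanSpace ℝ (Fin 2)) (R : ℝ) (hR : 0 < R) :
    RatApx.RatApprox (RatApx.circleSet c R ∪ {c, q, RatApx.invPoint c R q}) :=
  RatApx.circle_final' c q R hR

end Pool.Agent.Results.MP_431f31_co.CirclePlusThree
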