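import Pool.Agent.Lib.MP_431f31_co.D4

/-!
# A line and two pairs of mirror points are rationally approximable

Problem MP_431f31_co: which sets `P` of the plane are rationally approximable, i.e. for every `ε > 0`
there is a set `X` all of whose pairwise distances are rational and which comes within `ε` of every
point of `P`? Known: sets of three points, subsets of a line, subsets of a circle.

Here: for every line `L` and any two points `p`, `q` the set `L ∪ {p, q, p', q'}`, with `p'`, `q'` the
mirror images of `p`, `q` in `L`, is rationally approximable.

Proof. For suitable rational `a > b > 0` (dense up to scale) the points `(0, ±a)`, `(1, ±b)` are at
rational distances from each other, and the rational `x` such that `(x, 0)` has rational distance to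
them are dense in the line: a translation of the elliptic curve `y² = x² + a²`, `z² = (x-1)² + b²`
acts on the line, conjugate to a rotation by the integral of `dx / (y z)`; that the orbit of the point
at infinity is infinite follows from a 2-adic contraction estimate.
-/

set_option autoImplicit false

namespace Pool.Agent.Results.MP_431f31_co.LinePlusFour

/-- For every line `L` of the plane and any two points `p`, `q` the set consisting of `L`, `p`, `q` and
the mirror images of `p` and `q` in `L` is rationally approximable. -/
theorem result (o v p q : EuclideanSpace ℝ (Fin 2)) (hv : v ≠ 0) :
    RatApx.RatApprox (RatApx.lineSet o v ∪
      {p, q, RatApx.mirror o v p, RatApx.mirror o v q}) :=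
  RatApx.line_final o v p q hv

end Pool.Agent.Results.MP_431f31_co.LinePlusFour
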